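import Mathlib

/-!
# Diagonals of separately absolutely continuous maps are absolute Baire-one (MP_680d10_gt)
-/

namespace Pool.Agent.Results.MP_680d10_gt.DiagonalAbsBaireOne

open Set Topology Filter

universe u

/-- `X = [0,1]` -/
abbrev I : Type := Set.Icc (0 : ℝ) 1

/-- `h : [0,1] → Z` is absolutely continuous. -/
def AbsCont {Z : Type u} [MetricSpace Z] (h : I → Z) : Prop :=
  ∀ ε > 0, ∃ δ > 0, ∀ (n : ℕ) (a b : Fin n → I), (∀ i, a i < b i) → (∀ i j, i < j → b i ≤ a j) →
    ∑ i, ((b i : ℝ) - a i) < δ → ∑ i, dist (h (b i)) (h (a i)) < ε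

/-- `f : [0,1]² → Z` is separately absolutely continuous. -/
def SepAbsCont {Z : Type u} [MetricSpace Z] (f : I × I → Z) : Prop :=
  (∀ y, AbsCont fun x => f (x, y)) ∧ (∀ x, AbsCont fun y => f (x, y))

/-- `g : [0,1] → Z` is absolute Baire-one. -/
def AbsBaireOne {Z : Type u} [MetricSpace Z] (g : I → Z) : Prop :=
  ∃ G : ℕ → I → Z, (∀ n, Continuous (G n)) ∧ (∀ x, Tendsto (fun n => G n x) atTop (𝓝 (g x))) ∧
    ∀ x, Summable fun n => dist (G (n + 1) x) (G n x)

variable {Z : Type u} [MetricSpace Z]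

/-- absolutely continuous maps are continuous -/
theorem AbsCont.continuous {h : I → Z} (hh : AbsCont h) : Continuous h := by
  rw [Metric.continuous_iff]
  intro b ε hε
  obtain ⟨δ, hδ, H⟩ := hh ε hε
  refine ⟨δ, hδ, fun a hab => ?_⟩
  rw [Subtype.dist_eq, Real.dist_eq] at hab
  rcases lt_trichotomy a b with hlt | heq | hgt
  · have h1 := H 1 (fun _ => a) (fun _ => b) (fun _ => hlt)
      (fun i j hij => absurd hij (by rw [Subsingleton.elim i j]; exact lt_irrefl _)) (by
        simp only [Finset.univ_unique, Finset.sum_singleton]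
        rw [abs_sub_comm] at hab
        exact (le_abs_self _).trans_lt hab)
    simp only [Finset.univ_unique, Finset.sum_singleton] at h1
    rwa [dist_comm]
  · rw [heq, dist_self]
    exact hε
  · have h1 := H 1 (fun _ => b) (fun _ => a) (fun _ => hgt)
      (fun i j hij => absurd hij (by rw [Subsingleton.elim i j]; exact lt_irrefl _)) (by
        simp only [Finset.univ_unique, Finset.sum_singleton]
        exact (le_abs_self _).trans_lt hab)
    simpa only [Finset.univ_unique, Finset.sum_singleton] using h1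

/-- along a monotone sequence the variation of an absolutely continuous map is finite -/
theorem AbsCont.summable {h : I → Z} (hh : AbsCont h) {s : ℕ → I} (hs : Monotone s) :
    Summable fun n => dist (h (s (n + 1))) (h (s n)) := by
  obtain ⟨δ, hδ, H⟩ := hh 1 one_pos
  -- the sequence is Cauchy
  have hconv : CauchySeq fun n => (s n : ℝ) := by
    have h1 : Tendsto (fun n => (s n : ℝ)) atTop (𝓝 (⨆ n, (s n : ℝ))) :=
      tendsto_atTop_ciSup (fun a b hab => hs hab) ⟨1, by rintro _ ⟨n, rfl⟩; exact (s n).2.2⟩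
    exact h1.cauchySeq
  obtain ⟨N, hN⟩ := Metric.cauchySeq_iff.1 hconv δ hδ
  rw [← summable_nat_add_iff N]
  refine summable_of_sum_range_le (c := 1) (fun n => dist_nonneg) fun M => ?_
  -- indices with strict increase
  set J : Finset ℕ := (Finset.Ico N (N + M)).filter fun n => s n < s (n + 1) with hJ
  set e := J.orderEmbOfFin rfl with he
  have hmem : ∀ i, e i ∈ J := fun i => J.orderEmbOfFin_mem rfl i
  have hsum : ∀ F : ℕ → ℝ, ∑ i, F (e i) = ∑ n ∈ J, F n := by
    intro F
    have h1 := J.map_orderEmbOfFin_univ rfl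
    conv_rhs => rw [← h1]
    rw [Finset.sum_map]
    rfl
  have h1 := H J.card (fun i => s (e i)) (fun i => s (e i + 1))
    (fun i => (Finset.mem_filter.1 (hmem i)).2)
    (fun i j hij => hs (by
      have : e i < e j := e.strictMono hij
      omega)) (by
      rw [hsum fun n => ((s (n + 1) : ℝ) - s n)]
      have h2 : ∑ n ∈ J, ((s (n + 1) : ℝ) - s n) ≤
          ∑ n ∈ Finset.Ico N (N + M), ((s (n + 1) : ℝ) - s n) := by
        apply Finset.sum_le_sum_of_subset_of_nonneg (Finset.filter_subset _ _)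
        intro n _ _
        have : (s n : ℝ) ≤ s (n + 1) := hs (Nat.le_succ n)
        linarith
      rw [Finset.sum_Ico_eq_sum_range, Nat.add_sub_cancel_left] at h2
      have h3 : ∑ k ∈ Finset.range M, ((s (N + k + 1) : ℝ) - s (N + k)) = s (N + M) - s N := by
        have := Finset.sum_range_sub (fun k => (s (N + k) : ℝ)) M
        simpa [add_assoc] using this
      rw [h3] at h2
      have h4 := hN (N + M) (Nat.le_add_right _ _) N le_rfl
      rw [Real.dist_eq] at h4
      exact h2.trans_lt ((le_abs_self _).trans_lt h4))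
  rw [hsum fun n => dist (h (s (n + 1))) (h (s n))] at h1
  have h5 : ∑ n ∈ Finset.range M, dist (h (s (n + N + 1))) (h (s (n + N))) =
      ∑ n ∈ J, dist (h (s (n + 1))) (h (s n)) := by
    have h6 : ∑ n ∈ Finset.range M, dist (h (s (n + N + 1))) (h (s (n + N))) =
        ∑ n ∈ Finset.Ico N (N + M), dist (h (s (n + 1))) (h (s n)) := by
      rw [Finset.sum_Ico_eq_sum_range, Nat.add_sub_cancel_left]
      refine Finset.sum_congr rfl fun n _ => ?_
      rw [add_comm n N]
    rw [h6, hJ, Finset.sum_filter]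
    refine Finset.sum_congr rfl fun n _ => ?_
    split_ifs with h7
    · rfl
    · have h8 : s (n + 1) = s n := le_antisymm (not_lt.1 h7) (hs (Nat.le_succ n))
      rw [h8, dist_self]
  rw [h5]
  exact h1.le

/-! ### Good points -/

/-- Baire category: the points `c` at which `x ↦ G(t, x)` is continuous within `ε`, uniformly in
`t`, are dense. -/
theorem exists_good {G : I → I → Z} (h1 : ∀ x, Continuous fun t => G t x)
    (h2 : ∀ t, Continuous fun x => G t x) {ε : ℝ} (hε : 0 < ε) :
    Dense {c : I | ∀ᶠ x in 𝓝 c, ∀ t, dist (G t x) (G t c) ≤ ε} := by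
  set A : ℕ → Set I := fun m => {x | ∀ t t' : I, dist t t' < 1 / ((m : ℝ) + 1) →
    dist (G t x) (G t' x) ≤ ε / 3} with hA
  have hAc : ∀ m, IsClosed (A m) := by
    intro m
    have : A m = ⋂ t : I, ⋂ t' : I, ⋂ _ : dist t t' < 1 / ((m : ℝ) + 1),
        {x | dist (G t x) (G t' x) ≤ ε / 3} := by
      ext x
      simp only [hA, mem_iInter, Set.mem_ofPred_eq]
    rw [this]
    refine isClosed_iInter fun t => isClosed_iInter fun t' => isClosed_iInter fun _ => ?_
    exact isClosed_le ((h2 t).dist (h2 t')) continuous_const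
  have hAU : ⋃ m, A m = univ := by
    rw [eq_univ_iff_forall]
    intro x
    have huc : UniformContinuous fun t => G t x :=
      CompactSpace.uniformContinuous_of_continuous (h1 x)
    obtain ⟨δ, hδ, H⟩ := Metric.uniformContinuous_iff.1 huc (ε / 3) (by positivity)
    obtain ⟨m, hm⟩ := exists_nat_one_div_lt hδ
    exact mem_iUnion.2 ⟨m, fun t t' htt' => (H (htt'.trans hm)).le⟩
  refine (dense_iUnion_interior_of_closed hAc hAU).mono ?_
  intro c hc
  obtain ⟨m, hm⟩ := mem_iUnion.1 hc
  have hcA : c ∈ A m := interior_subset hm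
  have hm' : A m ∈ 𝓝 c := mem_interior_iff_mem_nhds.1 hm
  have hpos : (0 : ℝ) < 1 / ((m : ℝ) + 1) := by positivity
  obtain ⟨T, -, hTfin, hT⟩ := finite_cover_balls_of_compact (isCompact_univ (X := I)) hpos
  have hnear : ∀ᶠ x in 𝓝 c, ∀ t ∈ T, dist (G t x) (G t c) ≤ ε / 3 := by
    rw [hTfin.eventually_all]
    intro t _
    have h3 : Tendsto (fun x => dist (G t x) (G t c)) (𝓝 c) (𝓝 (dist (G t c) (G t c))) :=
      ((h2 t).dist continuous_const).tendsto c
    rw [dist_self] at h3
    exact (h3.eventually (gt_mem_nhds (by positivity : (0 : ℝ) < ε / 3))).mono fun x hx => le_of_lt hx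
  show ∀ᶠ x in 𝓝 c, ∀ t, dist (G t x) (G t c) ≤ ε
  filter_upwards [hnear, hm'] with x hx hxA s
  obtain ⟨t, ht, hst⟩ := mem_iUnion₂.1 (hT (mem_univ s))
  rw [Metric.mem_ball] at hst
  calc dist (G s x) (G s c) ≤ dist (G s x) (G t x) + dist (G t x) (G t c) + dist (G t c) (G s c) :=
        dist_triangle4 _ _ _ _
    _ ≤ ε / 3 + ε / 3 + ε / 3 := by
        gcongr
        · exact hxA s t hst
        · exact hx t ht
        · exact hcA t s (by rwa [dist_comm])
    _ = ε := by ring

/-! ### Staircases -/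

/-- gluing two continuous functions at a point -/
theorem glue {g h : ℝ → Z} {a b c : ℝ} (hab : a ≤ b) (hbc : b ≤ c) (hg : ContinuousOn g (Icc a b))
    (hh : ContinuousOn h (Icc b c)) (hgh : g b = h b) :
    ContinuousOn (fun x => if x ≤ b then g x else h x) (Icc a c) := by
  have h1 : ContinuousOn (fun x => if x ≤ b then g x else h x) (Icc a b) :=
    hg.congr fun x hx => if_pos hx.2
  have h2 : ContinuousOn (fun x => if x ≤ b then g x else h x) (Icc b c) := by
    refine hh.congr fun x hx => ?_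
    by_cases hxb : x ≤ b
    · have : x = b := le_antisymm hxb hx.1
      simp only [this, le_refl, if_true, hgh]
    · simp only [if_neg hxb]
  rw [← Icc_union_Icc_eq_Icc hab hbc]
  exact h1.union_of_isClosed h2 isClosed_Icc isClosed_Icc

/-- there is a continuous `g` on `[0,b]` with `g b = z` which is `ε`-close to `x ↦ G(t(x), x)`
for some `t(x)` between `max 0 (x-ρ)` and `max 0 (x-δ)`. -/
def Q (G : ℝ → ℝ → Z) (ε δ ρ b : ℝ) (z : Z) : Prop :=
  ∃ g : ℝ → Z, ContinuousOn g (Icc 0 b) ∧ g b = z ∧ ∀ x ∈ Icc 0 b, ∃ t : ℝ,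
    max 0 (x - ρ) ≤ t ∧ t ≤ max 0 (x - δ) ∧ dist (g x) (G t x) ≤ ε

theorem Q.extend {G : ℝ → ℝ → Z} {ε δ ρ b b' : ℝ} {z : Z} (hQ : Q G ε δ ρ b z) (hb : 0 ≤ b)
    (hbb' : b ≤ b') {h : ℝ → Z} (hh : ContinuousOn h (Icc b b')) (hhb : h b = z)
    (happ : ∀ x ∈ Icc b b', ∃ t : ℝ,
      max 0 (x - ρ) ≤ t ∧ t ≤ max 0 (x - δ) ∧ dist (h x) (G t x) ≤ ε) :
    Q G ε δ ρ b' (h b') := by
  obtain ⟨g, hg, hgb, hgapp⟩ := hQ
  refine ⟨fun x => if x ≤ b then g x else h x, glue hb hbb' hg hh (hgb.trans hhb.symm), ?_, ?_⟩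
  · show (if b' ≤ b then g b' else h b') = h b'
    split_ifs with h1
    · have : b' = b := le_antisymm h1 hbb'
      rw [this, hgb, hhb]
    · rfl
  · intro x hx
    show ∃ t : ℝ, max 0 (x - ρ) ≤ t ∧ t ≤ max 0 (x - δ) ∧
      dist (if x ≤ b then g x else h x) (G t x) ≤ ε
    by_cases hxb : x ≤ b
    · rw [if_pos hxb]
      exact hgapp x ⟨hx.1, hxb⟩
    · rw [if_neg hxb]
      exact happ x ⟨(not_le.1 hxb).le, hx.2⟩

/-- one step of the staircase -/
theorem step {G : ℝ → ℝ → Z} (h1 : ∀ x, Continuous fun t => G t x)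
    (h2 : ∀ t, Continuous fun x => G t x) {ε δ ρ μ c c' : ℝ} (hε : 0 < ε) (hμ : 0 < μ)
    (hμρ : 4 * μ = ρ - δ) (hc : 0 ≤ c) (hcc' : c < c') (hc'c : c' ≤ c + 2 * μ)
    (hgood : ∃ η > 0, ∀ x, |x - c'| ≤ η → ∀ t, dist (G t x) (G t c') ≤ ε / 2)
    (hQ : Q G ε δ ρ c (G (max 0 (c - δ - μ)) c)) : Q G ε δ ρ c' (G (max 0 (c' - δ - μ)) c') := by
  obtain ⟨η₀, hη₀, hgood⟩ := hgood
  set η := min η₀ (min μ (c' - c)) with hη
  have hηpos : 0 < η := lt_min hη₀ (lt_min hμ (by linarith))
  have hη1 : η ≤ η₀ := min_le_left _ _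
  have hη2 : η ≤ μ := (min_le_right _ _).trans (min_le_left _ _)
  have hη3 : η ≤ c' - c := (min_le_right _ _).trans (min_le_right _ _)
  set a := max 0 (c - δ - μ) with ha
  set a' := max 0 (c' - δ - μ) with ha'
  have haa' : a ≤ a' := max_le_max le_rfl (by linarith)
  -- bounds for the heights
  have hlow : ∀ x, x ≤ c' → max 0 (x - ρ) ≤ a := fun x hx => max_le_max le_rfl (by linarith)
  have hup : ∀ x, c ≤ x → a ≤ max 0 (x - δ) := fun x hx => max_le_max le_rfl (by linarith)
  have hup' : ∀ x, c' - η / 2 ≤ x → a' ≤ max 0 (x - δ) :=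
    fun x hx => max_le_max le_rfl (by linarith)
  -- first piece
  have hQ1 : Q G ε δ ρ (c' - η) (G a (c' - η)) := by
    refine hQ.extend (h := fun x => G a x) hc (by linarith) (h2 a).continuousOn rfl ?_
    intro x hx
    refine ⟨a, hlow x (by linarith [hx.2]), hup x hx.1, ?_⟩
    rw [dist_self]
    exact hε.le
  -- second piece
  have hQ2 : Q G ε δ ρ (c' - η / 2) (G a c') := by
    have := hQ1.extend (b' := c' - η / 2) (h := fun x => G a (2 * x - c' + η)) (by linarith)
      (by linarith) ((h2 a).comp (by fun_prop)).continuousOn (by ring_nf) (by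
        intro x hx
        refine ⟨a, hlow x (by linarith [hx.2]), hup x (by linarith [hx.1]), ?_⟩
        have e1 : dist (G a (2 * x - c' + η)) (G a c') ≤ ε / 2 := by
          apply hgood
          rw [abs_le]
          constructor <;> linarith [hx.1, hx.2]
        have e2 : dist (G a x) (G a c') ≤ ε / 2 := by
          apply hgood
          rw [abs_le]
          constructor <;> linarith [hx.1, hx.2]
        calc dist (G a (2 * x - c' + η)) (G a x)
            ≤ dist (G a (2 * x - c' + η)) (G a c') + dist (G a x) (G a c') :=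
              dist_triangle_right _ _ _
          _ ≤ ε := by linarith)
    have e : G a (2 * (c' - η / 2) - c' + η) = G a c' := by ring_nf
    simpa only [e] using this
  -- third piece
  have hQ3 := hQ2.extend (b' := c')
    (h := fun x => G (a + (a' - a) * ((x - (c' - η / 2)) / (η / 2))) c') (by linarith)
    (by linarith) ((h1 c').comp (by fun_prop)).continuousOn (by simp) (by
      intro x hx
      have hs0 : 0 ≤ (x - (c' - η / 2)) / (η / 2) := div_nonneg (by linarith [hx.1]) (by linarith)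
      have hs1 : (x - (c' - η / 2)) / (η / 2) ≤ 1 := by
        rw [div_le_one (by linarith)]
        linarith [hx.2]
      set s := (x - (c' - η / 2)) / (η / 2) with hs
      have ht1 : a ≤ a + (a' - a) * s := by nlinarith
      have ht2 : a + (a' - a) * s ≤ a' := by nlinarith
      refine ⟨a + (a' - a) * s, (hlow x hx.2).trans ht1, ht2.trans (hup' x hx.1), ?_⟩
      rw [dist_comm]
      refine (hgood x ?_ _).trans (by linarith)
      rw [abs_le]
      constructor <;> linarith [hx.1, hx.2])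
  have e : a + (a' - a) * ((c' - (c' - η / 2)) / (η / 2)) = a' := by
    field_simp
    ring
  simpa only [e] using hQ3

/-- the staircase approximation on `[0,1]` -/
theorem staircase {G : ℝ → ℝ → Z} (h1 : ∀ x, Continuous fun t => G t x)
    (h2 : ∀ t, Continuous fun x => G t x)
    (h3 : ∀ ε > 0, ∀ u v : ℝ, 0 ≤ u → u < v → v ≤ 1 → ∃ c, u < c ∧ c < v ∧
      ∃ η > 0, ∀ x, |x - c| ≤ η → ∀ t, dist (G t x) (G t c) ≤ ε)
    {ε δ ρ : ℝ} (hε : 0 < ε) (hδ : 0 < δ) (hδρ : δ < ρ) :
    ∃ g : ℝ → Z, ContinuousOn g (Icc 0 1) ∧ ∀ x ∈ Icc (0 : ℝ) 1, ∃ t : ℝ,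
      max 0 (x - ρ) ≤ t ∧ t ≤ max 0 (x - δ) ∧ dist (g x) (G t x) ≤ ε := by
  set μ := (ρ - δ) / 4 with hμdef
  have hμ : 0 < μ := by rw [hμdef]; linarith
  have hμρ : 4 * μ = ρ - δ := by rw [hμdef]; ring
  -- base
  have hQ0 : Q G ε δ ρ 0 (G (max 0 (0 - δ - μ)) 0) := by
    refine ⟨fun x => G (max 0 (0 - δ - μ)) x, (h2 _).continuousOn, rfl, ?_⟩
    intro x hx
    have hx0 : x = 0 := le_antisymm hx.2 hx.1
    subst hx0
    refine ⟨max 0 (0 - δ - μ), max_le_max le_rfl (by linarith), max_le_max le_rfl (by linarith), ?_⟩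
    rw [dist_self]
    exact hε.le
  have key : ∀ n : ℕ, ∃ c : ℝ, 0 ≤ c ∧ c ≤ 1 ∧ ((n : ℝ) * μ ≤ c ∨ 1 - 2 * μ ≤ c) ∧
      Q G ε δ ρ c (G (max 0 (c - δ - μ)) c) := by
    intro n
    induction n with
    | zero => exact ⟨0, le_rfl, zero_le_one, Or.inl (by simp), hQ0⟩
    | succ n ih =>
      obtain ⟨c, hc0, hc1, hn, hQ⟩ := ih
      by_cases hc : 1 - 2 * μ ≤ c
      · exact ⟨c, hc0, hc1, Or.inr hc, hQ⟩
      · push Not at hc
        have hn' := hn.resolve_right (not_le.2 hc)
        obtain ⟨c', hc'1, hc'2, hgood⟩ := h3 (ε / 2) (by positivity) (c + μ) (c + 2 * μ)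
          (by linarith) (by linarith) (by linarith)
        refine ⟨c', by linarith, by linarith, Or.inl ?_, ?_⟩
        · push_cast
          linarith
        · exact step h1 h2 hε hμ hμρ hc0 (by linarith) hc'2.le hgood hQ
  obtain ⟨n, hn⟩ := exists_nat_gt (1 / μ)
  obtain ⟨c, hc0, hc1, hnc, hQ⟩ := key n
  have hc : 1 - 2 * μ ≤ c := by
    rcases hnc with h | h
    · have : 1 < (n : ℝ) * μ := by
        rw [div_lt_iff₀ hμ] at hn
        exact hn
      linarith
    · exact h
  obtain ⟨g, hg, -, happ⟩ := hQ.extend (b' := 1) (h := fun x => G (max 0 (c - δ - μ)) x) hc0 hc1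
    (h2 _).continuousOn rfl (by
      intro x hx
      refine ⟨max 0 (c - δ - μ), max_le_max le_rfl (by linarith [hx.2]),
        max_le_max le_rfl (by linarith [hx.1]), ?_⟩
      rw [dist_self]
      exact hε.le)
  exact ⟨g, hg, happ⟩

/-- **MP_680d10_gt, Q1 (proved).** For every metric space `Z` and every separately absolutely
continuous `f : [0,1]² → Z`, the diagonal `x ↦ f(x,x)` is absolute Baire-one. -/
theorem result {Z : Type u} [MetricSpace Z] (f : I × I → Z) (hf : SepAbsCont f) :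
    AbsBaireOne fun x => f (x, x) := by
  let p : ℝ → I := Set.projIcc 0 1 zero_le_one
  have hp : Continuous p := continuous_projIcc
  have hpc : ∀ x : I, p x = x := fun x => Set.projIcc_val zero_le_one x
  have hc1 : ∀ y : I, Continuous fun x => f (x, y) := fun y => (hf.1 y).continuous
  have hc2 : ∀ x : I, Continuous fun y => f (x, y) := fun x => (hf.2 x).continuous
  let G : ℝ → ℝ → Z := fun t x => f (p t, p x)
  have h1 : ∀ x, Continuous fun t => G t x := fun x => (hc1 (p x)).comp hp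
  have h2 : ∀ t, Continuous fun x => G t x := fun t => (hc2 (p t)).comp hp
  have h3 : ∀ ε > 0, ∀ u v : ℝ, 0 ≤ u → u < v → v ≤ 1 → ∃ c, u < c ∧ c < v ∧
      ∃ η > 0, ∀ x, |x - c| ≤ η → ∀ t, dist (G t x) (G t c) ≤ ε := by
    intro ε hε u v hu huv hv
    have hd := exists_good (G := fun t x => f (t, x)) hc1 hc2 hε
    have hopen : IsOpen {x : I | u < x ∧ (x : ℝ) < v} :=
      (isOpen_lt continuous_const continuous_subtype_val).inter
        (isOpen_lt continuous_subtype_val continuous_const)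
    obtain ⟨c, hcu, hcgood⟩ := dense_iff_inter_open.1 hd _ hopen
      ⟨⟨(u + v) / 2, by constructor <;> linarith⟩, by constructor <;> simp <;> linarith⟩
    refine ⟨c, hcu.1, hcu.2, ?_⟩
    have h4 : ∀ᶠ x in 𝓝 (c : ℝ), ∀ t, dist (f (t, p x)) (f (t, c)) ≤ ε := by
      have h5 : Tendsto p (𝓝 (c : ℝ)) (𝓝 c) := by
        have := hp.tendsto (c : ℝ)
        rwa [hpc] at this
      exact h5.eventually hcgood
    obtain ⟨η, hη, hball⟩ := Metric.eventually_nhds_iff.1 h4
    refine ⟨η / 2, by positivity, fun x hx t => ?_⟩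
    have h6 := hball (y := x) (by rw [Real.dist_eq]; linarith) (p t)
    show dist (f (p t, p x)) (f (p t, p c)) ≤ ε
    rwa [hpc]
  -- parameters
  have hst : ∀ n : ℕ, ∃ g : ℝ → Z, ContinuousOn g (Icc 0 1) ∧ ∀ x ∈ Icc (0 : ℝ) 1, ∃ t : ℝ,
      max 0 (x - (1 / 2) ^ n) ≤ t ∧ t ≤ max 0 (x - (1 / 2) ^ (n + 1)) ∧
        dist (g x) (G t x) ≤ (1 / 2) ^ n := by
    intro n
    have hpos : (0 : ℝ) < (1 / 2) ^ n := by positivity
    exact staircase h1 h2 h3 (by positivity) (by positivity) (by rw [pow_succ]; linarith)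
  choose g hg happ using hst
  choose! τ hτ1 hτ2 hτ3 using happ
  refine ⟨fun n x => g n x, fun n => ?_, fun x => ?_, fun x => ?_⟩
  · exact continuousOn_iff_continuous_domRestrict.1 (hg n)
  · -- pointwise convergence
    have hx := x.2
    have hpow : Tendsto (fun n : ℕ => ((1 : ℝ) / 2) ^ n) atTop (𝓝 0) :=
      tendsto_pow_atTop_nhds_zero_of_lt_one (by norm_num) (by norm_num)
    have hτlim : Tendsto (fun n => τ n x) atTop (𝓝 (x : ℝ)) := by
      have e1 : Tendsto (fun n : ℕ => max 0 ((x : ℝ) - (1 / 2) ^ n)) atTop (𝓝 (x : ℝ)) := by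
        have := (tendsto_const_nhds (x := (0 : ℝ))).max
          ((tendsto_const_nhds (x := (x : ℝ))).sub hpow)
        rwa [sub_zero, max_eq_right hx.1] at this
      refine tendsto_of_tendsto_of_tendsto_of_le_of_le e1 tendsto_const_nhds
        (fun n => hτ1 n x hx) fun n => (hτ2 n x hx).trans (max_le hx.1 ?_)
      have : (0 : ℝ) < (1 / 2) ^ (n + 1) := by positivity
      linarith
    have hGlim : Tendsto (fun n => G (τ n x) x) atTop (𝓝 (f (x, x))) := by
      have := ((h1 x).tendsto (x : ℝ)).comp hτlim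
      have e : G (x : ℝ) (x : ℝ) = f (x, x) := by
        show f (p x, p x) = f (x, x)
        rw [hpc]
      rw [← e]
      exact this
    rw [tendsto_iff_dist_tendsto_zero] at hGlim ⊢
    have hlim : Tendsto (fun n : ℕ => ((1 : ℝ) / 2) ^ n + dist (G (τ n x) x) (f (x, x))) atTop
        (𝓝 0) := by
      have := hpow.add hGlim
      rwa [add_zero] at this
    refine squeeze_zero (fun n => dist_nonneg) (fun n => ?_) hlim
    calc dist (g n x) (f (x, x)) ≤ dist (g n x) (G (τ n x) x) + dist (G (τ n x) x) (f (x, x)) :=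
          dist_triangle _ _ _
      _ ≤ (1 / 2) ^ n + dist (G (τ n x) x) (f (x, x)) := by
          gcongr
          exact hτ3 n x hx
  · -- absolute convergence
    have hx := x.2
    have hmono : Monotone fun n => p (τ n x) := by
      apply monotone_nat_of_le_succ
      intro n
      apply Set.monotone_projIcc
      refine (hτ2 n x hx).trans ?_
      exact hτ1 (n + 1) x hx
    have hsum1 : Summable fun n => dist (G (τ (n + 1) x) x) (G (τ n x) x) := by
      have := (hf.1 (p x)).summable hmono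
      exact this
    have hgeo : Summable fun n : ℕ => ((1 : ℝ) / 2) ^ n :=
      summable_geometric_of_lt_one (by norm_num) (by norm_num)
    have hgeo1 : Summable fun n : ℕ => ((1 : ℝ) / 2) ^ (n + 1) :=
      (summable_nat_add_iff 1).2 hgeo
    refine Summable.of_nonneg_of_le (fun n => dist_nonneg) (fun n => ?_) ((hgeo1.add hsum1).add hgeo)
    calc dist (g (n + 1) x) (g n x)
        ≤ dist (g (n + 1) x) (G (τ (n + 1) x) x) + dist (G (τ (n + 1) x) x) (G (τ n x) x) +
          dist (G (τ n x) x) (g n x) := dist_triangle4 _ _ _ _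
      _ ≤ (1 / 2) ^ (n + 1) + dist (G (τ (n + 1) x) x) (G (τ n x) x) + (1 / 2) ^ n := by
          gcongr
          · exact hτ3 (n + 1) x hx
          · rw [dist_comm]
            exact hτ3 n x hx

end Pool.Agent.Results.MP_680d10_gt.DiagonalAbsBaireOne
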